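import Mathlib
import Pool.Agent.Helper93.RC.Geom
import Pool.Agent.Helper84.RC.P0
import Pool.Agent.Helper58.RC.P1
import Pool.Agent.Helper13.RC.P2
import Pool.Agent.Helper55.RC.P4
import Pool.Agent.Helper40.RC.P5
import Pool.Agent.Helper36.RC.P6

/-!
# MP_addad1_al, Q1: circles in Morse boundaries of random right-angled Coxeter groups

For every density function `p` with `p n > 1 / n` and `p n ≤ 1 - ε` for all large `n`, the
Morse boundary of the right-angled Coxeter group of the Erdős–Rényi random graph contains a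
circle asymptotically almost surely.
-/

namespace Pool.Agent.Results.MP_addad1_al.CircleInMorseBoundary

open Filter Topology Pool.Agent.Helper93.RC

/-- the probabilistic half: a good configuration exists asymptotically almost surely -/
theorem prob : ST_prob :=
  st_P6 Pool.Agent.Helper93.RC.P0.st_P0a
    (Pool.Agent.Helper13.RC.P2 (Pool.Agent.Helper58.RC.st_P1 Pool.Agent.Helper93.RC.P0.st_P0a
      Pool.Agent.Helper93.RC.P0.st_P0b Pool.Agent.Helper93.RC.P0.st_P0c))
    (Pool.Agent.Helper55.RC.st_P4 Pool.Agent.Helper93.RC.P0.st_P0a Pool.Agent.Helper93.RC.P0.st_P0b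
      Pool.Agent.Helper93.RC.P0.st_P0c)
    (Pool.Agent.Helper40.RC.p5 Pool.Agent.Helper93.RC.P0.st_P0a Pool.Agent.Helper93.RC.P0.st_P0b
      Pool.Agent.Helper93.RC.P0.st_P0c)

/-- Q1, affirmative answer: for every density function `p` with `1 / n < p n ≤ 1 - ε` for all
large `n`, the probability that the Morse boundary of the right-angled Coxeter group of the random
graph `Γ(n, p n)` contains a circle tends to `1`. -/
theorem result (p : ℕ → ℝ) (ε : ℝ) (hε : 0 < ε) (hlow : ∀ᶠ n : ℕ in atTop, 1 / (n : ℝ) < p n)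
    (hup : ∀ᶠ n : ℕ in atTop, p n ≤ 1 - ε) :
    Tendsto (fun n : ℕ => gnp n (p n) {Γ | HasCircle Γ}) atTop (𝓝 1) := by
  refine tendsto_of_tendsto_of_tendsto_of_le_of_le' (prob p ε hε hlow hup) tendsto_const_nhds
    ?_ ?_
  · filter_upwards [hlow, hup] with n h1 h2
    have h0 : (0 : ℝ) ≤ p n := le_trans (by positivity) h1.le
    exact Pool.Agent.Helper93.RC.P0.gnp_mono h0 (by linarith) (fun Γ hΓ => st_geom _ Γ hΓ)
  · filter_upwards [hlow, hup] with n h1 h2
    have h0 : (0 : ℝ) ≤ p n := le_trans (by positivity) h1.le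
    exact Pool.Agent.Helper93.RC.P0.gnp_le_one h0 (by linarith) _

end Pool.Agent.Results.MP_addad1_al.CircleInMorseBoundary
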